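import Mathlib
import Pool.Agent.Lib.MP_b9b9f8_al.Defs
import Pool.Agent.Lib.MP_b9b9f8_al.Wild.Defs
import Pool.Agent.Lib.MP_b9b9f8_al.Wild.Main

/-! Negative answer to Q1 of MP_b9b9f8_al, for both parts: a complete intersection with
`cx_R(k) ≤ 2` has Burch ideals `I`, `J` with `tcx_R(I, J) = tcurv_R(I, J) = ∞`, and
`μ(Tor_n(I, J))` exceeds any prescribed sequence infinitely often. -/

namespace Pool.Agent.Results.MP_b9b9f8_al.TorWild

open Pool.Agent.Lib.MP_b9b9f8_al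

theorem result : ∃ (R : Type) (_ : CommRing R) (_ : IsNoetherianRing R) (_ : IsLocalRing R),
    IsCI R ∧ cxResidue R ≤ 2 ∧ ∀ φ : ℕ → ℕ, ∃ I J : Ideal R,
      IsBurch I ∧ IsBurch J ∧ I.radical ≠ IsLocalRing.maximalIdeal R ∧
      tcx R (ModuleCat.of R I) (ModuleCat.of R J) = ⊤ ∧
      tcurv R (ModuleCat.of R I) (ModuleCat.of R J) = ⊤ ∧
      ∃ᶠ n in Filter.atTop,
        (φ n : ℕ∞) ≤ mu R (tor R (ModuleCat.of R I) (ModuleCat.of R J) n) := by
  refine ⟨Wild.R0, inferInstance, inferInstance, inferInstance, Wild.isCI, Wild.cx_le, fun φ => ?_⟩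
  obtain ⟨I, J, h1, h2, h3, h4⟩ := Wild.wild fun n => max (φ n) (n ^ n)
  have h5 := h4.mono fun n hn => le_trans (Nat.cast_le.2 (le_max_right (φ n) (n ^ n))) hn
  exact ⟨I, J, h1, h2, h3, Wild.growth_top h5, Wild.limsup_top h5,
    h4.mono fun n hn => le_trans (Nat.cast_le.2 (le_max_left (φ n) (n ^ n))) hn⟩

end Pool.Agent.Results.MP_b9b9f8_al.TorWild
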